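import Pool.Agent.Run7.h507.KR.Defs

/-!
# Project KR (helper507), piece HB
-/

set_option autoImplicit false

open MeasureTheory Metric Set Filter Topology

namespace Pool.Agent.Run7.h136.KR

open Pool.Agent.Run7.h507.KR

/-- the Laurent polynomial -/
noncomputable def XX (s : Finset ℤ) (x : ℤ → ℂ) (R : ℝ) (z : ℂ) : ℂ :=
  ∑ l ∈ s, x l * ((R : ℂ) ^ l)⁻¹ * z ^ l

theorem XX_circle (s : Finset ℤ) (x : ℤ → ℂ) {R : ℝ} (hR : 0 < R) (θ : ℝ) :
    XX s x R (circleMap 0 R θ) =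
      ∑ l ∈ s, x l * Complex.exp (((l : ℝ) * θ : ℝ) * Complex.I) := by
  unfold XX circleMap
  refine Finset.sum_congr rfl fun l _ => ?_
  have hR' : (R : ℂ) ≠ 0 := by exact_mod_cast hR.ne'
  have h1 : (R : ℂ) ^ l ≠ 0 := zpow_ne_zero _ hR'
  rw [zero_add, mul_zpow, ← Complex.exp_int_mul]
  have e : Complex.exp ((l : ℂ) * (θ * Complex.I)) =
      Complex.exp (((l : ℝ) * θ : ℝ) * Complex.I) := by
    congr 1
    push_cast
    ring
  rw [e]
  calc x l * ((R : ℂ) ^ l)⁻¹ * ((R : ℂ) ^ l * Complex.exp (((l : ℝ) * θ : ℝ) * Complex.I)) =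
      x l * (((R : ℂ) ^ l)⁻¹ * (R : ℂ) ^ l) * Complex.exp (((l : ℝ) * θ : ℝ) * Complex.I) := by ring
    _ = _ := by rw [inv_mul_cancel₀ h1, mul_one]

theorem co_mul (h : ℂ → ℂ) (s : Finset ℤ) (x : ℤ → ℂ) {R : ℝ} (hR : 0 < R)
    (hh : Continuous fun θ => h (circleMap 0 R θ)) (k : ℤ) :
    co (fun z => h z * XX s x R z) R k = ∑ l ∈ s, co h R (k - l) * x l := by
  unfold co
  have e : ∀ θ : ℝ, h (circleMap 0 R θ) * XX s x R (circleMap 0 R θ) *
      Complex.exp (-(((k : ℝ) * θ : ℝ) * Complex.I)) =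
      ∑ l ∈ s, x l * (h (circleMap 0 R θ) *
        Complex.exp (-((((k - l : ℤ) : ℝ) * θ : ℝ) * Complex.I))) := by
    intro θ
    rw [XX_circle s x hR, Finset.mul_sum, Finset.sum_mul]
    refine Finset.sum_congr rfl fun l _ => ?_
    have e1 : Complex.exp (-((((k - l : ℤ) : ℝ) * θ : ℝ) * Complex.I)) =
        Complex.exp (((l : ℝ) * θ : ℝ) * Complex.I) *
          Complex.exp (-(((k : ℝ) * θ : ℝ) * Complex.I)) := by
      rw [← Complex.exp_add]
      congr 1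
      push_cast
      ring
    rw [e1]
    ring
  simp_rw [e]
  rw [intervalIntegral.integral_finset_sum]
  · rw [Finset.mul_sum]
    refine Finset.sum_congr rfl fun l _ => ?_
    rw [intervalIntegral.integral_const_mul]
    ring
  · intro l _
    apply Continuous.intervalIntegrable
    refine continuous_const.mul (hh.mul ?_)
    fun_prop

theorem co_one (R : ℝ) (k : ℤ) : co (fun _ => 1) R k = if k = 0 then 1 else 0 := by
  unfold co
  simp only [one_mul]
  split_ifs with h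
  · subst h
    have hpi : (Real.pi : ℂ) ≠ 0 := by exact_mod_cast Real.pi_ne_zero
    simp
    field_simp
  · have hk : (-(k : ℂ) * Complex.I) ≠ 0 :=
      mul_ne_zero (neg_ne_zero.2 (by exact_mod_cast h)) Complex.I_ne_zero
    have e : ∀ θ : ℝ, Complex.exp (-(((k : ℝ) * θ : ℝ) * Complex.I)) =
        Complex.exp ((-(k : ℂ) * Complex.I) * θ) := by
      intro θ
      congr 1
      push_cast
      ring
    simp_rw [e]
    rw [integral_exp_mul_complex hk]
    have e2 : Complex.exp ((-(k : ℂ) * Complex.I) * ((2 * Real.pi : ℝ) : ℂ)) = 1 := by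
      rw [Complex.exp_eq_one_iff]
      refine ⟨-k, ?_⟩
      push_cast
      ring
    rw [e2]
    simp

theorem co_XX (s : Finset ℤ) (x : ℤ → ℂ) {R : ℝ} (hR : 0 < R) (k : ℤ) :
    co (XX s x R) R k = if k ∈ s then x k else 0 := by
  have h1 := co_mul (fun _ => 1) s x hR continuous_const k
  simp only [one_mul] at h1
  have h2 : co (XX s x R) R k = ∑ l ∈ s, co (fun _ => 1) R (k - l) * x l := h1
  rw [h2]
  simp_rw [co_one]
  rw [← Finset.sum_ite_eq s k x]
  refine Finset.sum_congr rfl fun l _ => ?_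
  by_cases hkl : k = l
  · rw [if_pos hkl, if_pos (sub_eq_zero.2 hkl), one_mul]
  · rw [if_neg hkl, if_neg (fun h => hkl (sub_eq_zero.1 h)), zero_mul]

theorem ms_le {R : ℝ} (h X : ℂ → ℂ) (hc : Continuous fun θ => h (circleMap 0 R θ))
    (hX : Continuous fun θ => X (circleMap 0 R θ)) (hb : ∀ θ, ‖h (circleMap 0 R θ)‖ ≤ 1) :
    ms (fun z => h z * X z) R ≤ ms X R := by
  unfold ms
  refine mul_le_mul_of_nonneg_left ?_ (by positivity)
  refine intervalIntegral.integral_mono_on (by positivity) ?_ ?_ ?_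
  · exact ((hc.mul hX).norm.pow 2).intervalIntegrable _ _
  · exact (hX.norm.pow 2).intervalIntegrable _ _
  · intro θ _
    rw [norm_mul]
    have h1 : ‖h (circleMap 0 R θ)‖ * ‖X (circleMap 0 R θ)‖ ≤ ‖X (circleMap 0 R θ)‖ := by
      have := mul_le_mul_of_nonneg_right (hb θ) (norm_nonneg (X (circleMap 0 R θ)))
      rwa [one_mul] at this
    exact pow_le_pow_left₀ (by positivity) h1 2

theorem t_HB (hANN : S_ANN) (hPAR : S_PAR) : S_HB := by
  intro r ρ R β h hr hρ hR hR1 hβ hh hb K s x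
  have hρ0 : 0 < ρ := by linarith
  have hR0 : 0 < R := by linarith
  have hmem : ∀ {t : ℝ}, r < t → t < 1 → ∀ z ∈ sphere (0 : ℂ) t, z ∈ Ann r := by
    intro t h1 h2 z hz
    rw [mem_sphere_zero_iff_norm] at hz
    exact ⟨by rw [hz]; exact h1, by rw [hz]; exact h2⟩
  have hcm : ∀ {t : ℝ}, r < t → t < 1 → ∀ θ : ℝ, circleMap 0 t θ ∈ Ann r := by
    intro t h1 h2 θ
    exact hmem h1 h2 _ (circleMap_mem_sphere 0 (by linarith) θ)
  have hXd : DifferentiableOn ℂ (XX s x R) (Ann r) := by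
    unfold XX
    refine DifferentiableOn.fun_sum fun l _ => ?_
    refine DifferentiableOn.mul (differentiableOn_const _) (differentiableOn_zpow l _ (Or.inl ?_))
    intro h0
    have := h0.1
    rw [norm_zero] at this
    linarith
  have hFd : DifferentiableOn ℂ (fun z => h z * XX s x R z) (Ann r) := hh.mul hXd
  have hcont : ∀ {f : ℂ → ℂ} {t : ℝ}, DifferentiableOn ℂ f (Ann r) → r < t → t < 1 →
      Continuous fun θ => f (circleMap 0 t θ) := by
    intro f t hf h1 h2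
    exact hf.continuousOn.comp_continuous (continuous_circleMap 0 t) (hcm h1 h2)
  have hcs : ∀ {f : ℂ → ℂ} {t : ℝ}, DifferentiableOn ℂ f (Ann r) → r < t → t < 1 →
      ContinuousOn f (sphere 0 t) := by
    intro f t hf h1 h2
    exact hf.continuousOn.mono (hmem h1 h2)
  have hq : ∀ (k : ℤ) (c : ℂ), ‖(((ρ / R) ^ k : ℝ) : ℂ) * c‖ ^ 2 = ((ρ / R) ^ 2) ^ k * ‖c‖ ^ 2 := by
    intro k c
    rw [norm_mul, Complex.norm_real, Real.norm_eq_abs, abs_of_pos (by positivity), mul_pow]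
    congr 1
    rw [← zpow_natCast, ← zpow_natCast, ← zpow_mul, ← zpow_mul, mul_comm]
  -- the polynomial
  have hX1 : ms (XX s x R) R = ∑ l ∈ s, ‖x l‖ ^ 2 := by
    have h1 := hPAR R (XX s x R) hR0 (hcs hXd (by linarith) hR1)
    have h2 : HasSum (fun k : ℤ => ‖co (XX s x R) R k‖ ^ 2)
        (∑ k ∈ s, ‖co (XX s x R) R k‖ ^ 2) := by
      apply hasSum_sum_of_ne_finset_zero
      intro k hk
      rw [co_XX s x hR0, if_neg hk]
      simp
    rw [h1.unique h2]
    refine Finset.sum_congr rfl fun k hk => ?_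
    rw [co_XX s x hR0, if_pos hk]
  have hX2 : ms (XX s x R) ρ = ∑ l ∈ s, ((ρ / R) ^ 2) ^ l * ‖x l‖ ^ 2 := by
    have h1 := hPAR ρ (XX s x R) hρ0 (hcs hXd hρ (by linarith))
    have h2 : HasSum (fun k : ℤ => ‖co (XX s x R) ρ k‖ ^ 2)
        (∑ k ∈ s, ‖co (XX s x R) ρ k‖ ^ 2) := by
      apply hasSum_sum_of_ne_finset_zero
      intro k hk
      rw [hANN r ρ R _ k hr hρ hR hR1 hXd, co_XX s x hR0, if_neg hk]
      simp
    rw [h1.unique h2]
    refine Finset.sum_congr rfl fun k hk => ?_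
    rw [hANN r ρ R _ k hr hρ hR hR1 hXd, co_XX s x hR0, if_pos hk, hq]
  -- the product
  have hF1 : ∑ k ∈ K, ‖co (fun z => h z * XX s x R z) R k‖ ^ 2 ≤ ∑ l ∈ s, ‖x l‖ ^ 2 := by
    have h1 := hPAR R (fun z => h z * XX s x R z) hR0 (hcs hFd (by linarith) hR1)
    refine (sum_le_hasSum K (fun k _ => by positivity) h1).trans ?_
    rw [← hX1]
    exact ms_le h _ (hcont hh (by linarith) hR1) (hcont hXd (by linarith) hR1)
      (fun θ => hb _ (hcm (by linarith) hR1 θ))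
  have hF2 : ∑ k ∈ K, ((ρ / R) ^ 2) ^ k * ‖co (fun z => h z * XX s x R z) R k‖ ^ 2 ≤
      ∑ l ∈ s, ((ρ / R) ^ 2) ^ l * ‖x l‖ ^ 2 := by
    have h1 := hPAR ρ (fun z => h z * XX s x R z) hρ0 (hcs hFd hρ (by linarith))
    have h2 := (sum_le_hasSum K (fun k _ => by positivity) h1).trans
      (ms_le h _ (hcont hh hρ (by linarith)) (hcont hXd hρ (by linarith))
        (fun θ => hb _ (hcm hρ (by linarith) θ)))
    rw [hX2] at h2
    refine le_trans (le_of_eq ?_) h2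
    refine Finset.sum_congr rfl fun k _ => ?_
    rw [hANN r ρ R _ k hr hρ hR hR1 hFd, hq]
  have hco : ∀ k, co (fun z => h z * XX s x R z) R k = ∑ l ∈ s, co h R (k - l) * x l :=
    fun k => co_mul h s x hR0 (hcont hh (by linarith) hR1) k
  simp_rw [hco] at hF1 hF2
  have e1 : ∑ k ∈ K, (1 + β * ((ρ / R) ^ 2) ^ k) * ‖∑ l ∈ s, co h R (k - l) * x l‖ ^ 2 =
      ∑ k ∈ K, ‖∑ l ∈ s, co h R (k - l) * x l‖ ^ 2 +
        β * ∑ k ∈ K, ((ρ / R) ^ 2) ^ k * ‖∑ l ∈ s, co h R (k - l) * x l‖ ^ 2 := by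
    rw [Finset.mul_sum, ← Finset.sum_add_distrib]
    exact Finset.sum_congr rfl fun k _ => by ring
  have e2 : ∑ l ∈ s, (1 + β * ((ρ / R) ^ 2) ^ l) * ‖x l‖ ^ 2 =
      ∑ l ∈ s, ‖x l‖ ^ 2 + β * ∑ l ∈ s, ((ρ / R) ^ 2) ^ l * ‖x l‖ ^ 2 := by
    rw [Finset.mul_sum, ← Finset.sum_add_distrib]
    exact Finset.sum_congr rfl fun k _ => by ring
  rw [e1, e2]
  exact add_le_add hF1 (mul_le_mul_of_nonneg_left hF2 hβ)

end Pool.Agent.Run7.h136.KR
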